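import Mathlib

/-!
# A compact separable zero-dimensional monotonically normal space that is not orderable

Points of the space `Sp` are triples `(x, f, g)`: a real number `x` in `[0,1]`, a function `f` from
the irrational numbers to `Bool` with `f a = true → a ≤ x` and `f a = false → x ≤ a`, and a function
`g` from the rational numbers to `Bool` with `g r = true → x = r`.
So every irrational `x` is doubled, and every rational `r` gives one point `qq r`, which is not split
and not isolated, and one isolated point `yy r`.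
-/

set_option autoImplicit false
open TopologicalSpace Set

namespace Pool.Agent.Lib.MP_7dfaf1_gt

/-- irrational numbers -/
abbrev Irr : Type := {a : ℝ // Irrational a}

/-- the ambient product -/
abbrev Amb : Type := ℝ × (Irr → Bool) × (ℚ → Bool)

/-- the space, as a closed subset of a compact product -/
def SS : Set Amb :=
  {p | (0 ≤ p.1 ∧ p.1 ≤ 1) ∧ (∀ a : Irr, p.2.1 a = true → (a : ℝ) ≤ p.1) ∧
    (∀ a : Irr, p.2.1 a = false → p.1 ≤ (a : ℝ)) ∧ ∀ r : ℚ, p.2.2 r = true → p.1 = (r : ℝ)}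

/-- the space -/
def Sp : Type := {p : Amb // p ∈ SS}

instance : TopologicalSpace Sp := inferInstanceAs (TopologicalSpace {p : Amb // p ∈ SS})
instance : T2Space Sp := inferInstanceAs (T2Space {p : Amb // p ∈ SS})

/-- the point of the ambient product -/
def toAmb (p : Sp) : Amb := Subtype.val p
theorem toAmb_mem (p : Sp) : toAmb p ∈ SS := Subtype.property p
theorem continuous_toAmb : Continuous toAmb := continuous_subtype_val

/-- real coordinate -/
def xx (p : Sp) : ℝ := (toAmb p).1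
/-- side coordinates -/
def FF (p : Sp) (a : Irr) : Bool := (toAmb p).2.1 a
/-- coordinates marking the isolated points -/
def GG (p : Sp) (r : ℚ) : Bool := (toAmb p).2.2 r

theorem xx_nonneg (p : Sp) : 0 ≤ xx p := (toAmb_mem p).1.1
theorem xx_le_one (p : Sp) : xx p ≤ 1 := (toAmb_mem p).1.2
theorem le_of_FF {p : Sp} {a : Irr} (h : FF p a = true) : (a : ℝ) ≤ xx p := (toAmb_mem p).2.1 a h
theorem ge_of_FF {p : Sp} {a : Irr} (h : FF p a = false) : xx p ≤ (a : ℝ) := (toAmb_mem p).2.2.1 a h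
theorem eq_of_GG {p : Sp} {r : ℚ} (h : GG p r = true) : xx p = (r : ℝ) := (toAmb_mem p).2.2.2 r h

theorem FF_of_lt {p : Sp} {a : Irr} (h : (a : ℝ) < xx p) : FF p a = true := by
  by_contra h'
  have := ge_of_FF (Bool.eq_false_iff.mpr h')
  linarith

theorem FF_of_gt {p : Sp} {a : Irr} (h : xx p < (a : ℝ)) : FF p a = false := by
  by_contra h'
  have := le_of_FF (Bool.not_eq_false _ ▸ h')
  linarith

theorem Sp_ext {p q : Sp} (h1 : xx p = xx q) (h2 : ∀ a : Irr, (a : ℝ) = xx q → FF p a = FF q a)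
    (h3 : ∀ r, GG p r = GG q r) : p = q := by
  apply Subtype.ext
  refine Prod.ext h1 (Prod.ext (funext fun a => ?_) (funext h3))
  rcases lt_trichotomy (a : ℝ) (xx q) with h | h | h
  · exact (FF_of_lt (p := p) (by rw [h1]; exact h)).trans (FF_of_lt (p := q) h).symm
  · exact h2 a h
  · exact (FF_of_gt (p := p) (by rw [h1]; exact h)).trans (FF_of_gt (p := q) h).symm

theorem irr_ne_rat (a : Irr) (r : ℚ) : (a : ℝ) ≠ (r : ℝ) := fun h => a.2 ⟨r, h.symm⟩

theorem eq_of_GG_GG {p q : Sp} {r : ℚ} (hp : GG p r = true) (hq : GG q r = true) : p = q := by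
  have hx := eq_of_GG hp
  have hy := eq_of_GG hq
  refine Sp_ext (hx.trans hy.symm) (fun a ha => absurd (ha.trans hy) (irr_ne_rat a r)) fun s => ?_
  by_cases hs : s = r
  · rw [hs, hp, hq]
  · have h1 : GG p s = false := by
      by_contra h
      have := eq_of_GG (Bool.not_eq_false _ ▸ h)
      exact hs (by exact_mod_cast this.symm.trans hx)
    have h2 : GG q s = false := by
      by_contra h
      have := eq_of_GG (Bool.not_eq_false _ ▸ h)
      exact hs (by exact_mod_cast this.symm.trans hy)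
    rw [h1, h2]

theorem continuous_xx : Continuous xx := continuous_fst.comp continuous_toAmb
theorem continuous_FF (a : Irr) : Continuous fun p : Sp => FF p a :=
  (continuous_apply a).comp (continuous_fst.comp (continuous_snd.comp continuous_toAmb))
theorem continuous_GG (r : ℚ) : Continuous fun p : Sp => GG p r :=
  (continuous_apply r).comp (continuous_snd.comp (continuous_snd.comp continuous_toAmb))

theorem isClopen_FF (a : Irr) (b : Bool) : IsClopen {p : Sp | FF p a = b} :=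
  (isClopen_discrete {b}).preimage (continuous_FF a)
theorem isClopen_GG (r : ℚ) (b : Bool) : IsClopen {p : Sp | GG p r = b} :=
  (isClopen_discrete {b}).preimage (continuous_GG r)

theorem isClosed_SS : IsClosed SS := by
  have c1 : Continuous fun p : Amb => p.1 := continuous_fst
  have c2 : ∀ a : Irr, Continuous fun p : Amb => p.2.1 a := fun a =>
    (continuous_apply a).comp (continuous_fst.comp continuous_snd)
  have c3 : ∀ r : ℚ, Continuous fun p : Amb => p.2.2 r := fun a =>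
    (continuous_apply a).comp (continuous_snd.comp continuous_snd)
  have o2 : ∀ (a : Irr) (b : Bool), IsOpen {p : Amb | p.2.1 a = b} := fun a b =>
    (isOpen_discrete {b}).preimage (c2 a)
  have o3 : ∀ (r : ℚ) (b : Bool), IsOpen {p : Amb | p.2.2 r = b} := fun a b =>
    (isOpen_discrete {b}).preimage (c3 a)
  have e : SS = ({p : Amb | 0 ≤ p.1} ∩ {p : Amb | p.1 ≤ 1}) ∩
      ((⋂ a : Irr, {p : Amb | p.2.1 a = true → (a : ℝ) ≤ p.1}) ∩
      ((⋂ a : Irr, {p : Amb | p.2.1 a = false → p.1 ≤ (a : ℝ)}) ∩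
      (⋂ r : ℚ, {p : Amb | p.2.2 r = true → p.1 = (r : ℝ)}))) := by
    ext p
    simp only [SS, mem_ofPred_eq, mem_inter_iff, mem_iInter]
  rw [e]
  refine ((isClosed_le continuous_const c1).inter (isClosed_le c1 continuous_const)).inter
    ((isClosed_iInter fun a => isClosed_imp (o2 a true) (isClosed_le continuous_const c1)).inter
    ((isClosed_iInter fun a => isClosed_imp (o2 a false) (isClosed_le c1 continuous_const)).inter
    (isClosed_iInter fun r => isClosed_imp (o3 r true) (isClosed_eq c1 continuous_const))))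

theorem isCompact_SS : IsCompact SS := by
  have h : IsCompact ((Icc (0 : ℝ) 1) ×ˢ (univ : Set ((Irr → Bool) × (ℚ → Bool)))) :=
    isCompact_Icc.prod isCompact_univ
  refine h.of_isClosed_subset isClosed_SS fun p hp => ?_
  exact ⟨hp.1, mem_univ _⟩

instance : CompactSpace Sp :=
  (isCompact_iff_compactSpace.mp isCompact_SS : CompactSpace {p : Amb // p ∈ SS})

instance : TotallySeparatedSpace Sp := by
  refine ⟨fun p _ q _ hpq => ?_⟩
  by_cases hF : ∃ a, FF p a ≠ FF q a
  · obtain ⟨a, ha⟩ := hF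
    refine ⟨{z | FF z a = FF p a}, {z | FF z a = FF p a}ᶜ, (isClopen_FF a _).isOpen,
      (isClopen_FF a _).compl.isOpen, rfl, fun h => ha h.symm, ?_, disjoint_compl_right⟩
    rw [union_compl_self]
  · by_cases hG : ∃ r, GG p r ≠ GG q r
    · obtain ⟨a, ha⟩ := hG
      refine ⟨{z | GG z a = GG p a}, {z | GG z a = GG p a}ᶜ, (isClopen_GG a _).isOpen,
        (isClopen_GG a _).compl.isOpen, rfl, fun h => ha h.symm, ?_, disjoint_compl_right⟩
      rw [union_compl_self]
    · exfalso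
      push Not at hF hG
      refine hpq (Sp_ext ?_ (fun a _ => hF a) hG)
      by_contra hx
      rcases lt_or_gt_of_ne hx with h | h
      · obtain ⟨a, ha, h1, h2⟩ := exists_irrational_btwn h
        have e := hF ⟨a, ha⟩
        rw [FF_of_gt (p := p) (a := ⟨a, ha⟩) h1, FF_of_lt (p := q) (a := ⟨a, ha⟩) h2] at e
        cases e
      · obtain ⟨a, ha, h1, h2⟩ := exists_irrational_btwn h
        have e := hF ⟨a, ha⟩
        rw [FF_of_lt (p := p) (a := ⟨a, ha⟩) h2, FF_of_gt (p := q) (a := ⟨a, ha⟩) h1] at e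
        cases e

/-- isolated points -/
def Iso (p : Sp) : Prop := ∃ r, GG p r = true

theorem GG_false_of_not_Iso {p : Sp} (h : ¬ Iso p) (r : ℚ) : GG p r = false := by
  by_contra h'
  exact h ⟨r, Bool.not_eq_false _ ▸ h'⟩

/-- basic neighbourhoods of the non-isolated points -/
def NN (p : Sp) (d : ℝ) : Set Sp :=
  {z | |xx z - xx p| < d ∧ (∀ a : Irr, (a : ℝ) = xx p → FF z a = FF p a) ∧
    ∀ r : ℚ, (r : ℝ) = xx p → GG z r = false}

theorem NN_mono {p : Sp} {d e : ℝ} (h : d ≤ e) : NN p d ⊆ NN p e :=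
  fun _ hz => ⟨lt_of_lt_of_le hz.1 h, hz.2⟩

theorem self_mem_NN {p : Sp} (hp : ¬ Iso p) {d : ℝ} (hd : 0 < d) : p ∈ NN p d :=
  ⟨by simpa using hd, fun _ _ => rfl, fun r _ => GG_false_of_not_Iso hp r⟩

theorem isClopen_side (p : Sp) : IsClopen {z : Sp | ∀ a : Irr, (a : ℝ) = xx p → FF z a = FF p a} := by
  by_cases h : ∃ a : Irr, (a : ℝ) = xx p
  · obtain ⟨a, ha⟩ := h
    have : {z : Sp | ∀ a : Irr, (a : ℝ) = xx p → FF z a = FF p a} = {z : Sp | FF z a = FF p a} := by
      ext z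
      refine ⟨fun hz => hz a ha, fun hz b hb => ?_⟩
      have : b = a := Subtype.ext (hb.trans ha.symm)
      rw [this]; exact hz
    rw [this]
    exact isClopen_FF a _
  · have : {z : Sp | ∀ a : Irr, (a : ℝ) = xx p → FF z a = FF p a} = univ := by
      ext z
      exact ⟨fun _ => mem_univ _, fun _ a ha => absurd ⟨a, ha⟩ h⟩
    rw [this]
    exact isClopen_univ

theorem isClopen_iso (p : Sp) : IsClopen {z : Sp | ∀ r : ℚ, (r : ℝ) = xx p → GG z r = false} := by
  by_cases h : ∃ r : ℚ, (r : ℝ) = xx p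
  · obtain ⟨a, ha⟩ := h
    have : {z : Sp | ∀ r : ℚ, (r : ℝ) = xx p → GG z r = false} = {z : Sp | GG z a = false} := by
      ext z
      refine ⟨fun hz => hz a ha, fun hz b hb => ?_⟩
      have : b = a := by exact_mod_cast (hb.trans ha.symm)
      rw [this]; exact hz
    rw [this]
    exact isClopen_GG a _
  · have : {z : Sp | ∀ r : ℚ, (r : ℝ) = xx p → GG z r = false} = univ := by
      ext z
      exact ⟨fun _ => mem_univ _, fun _ a ha => absurd ⟨a, ha⟩ h⟩
    rw [this]
    exact isClopen_univ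

theorem isOpen_NN (p : Sp) (d : ℝ) : IsOpen (NN p d) := by
  have h1 : IsOpen {z : Sp | |xx z - xx p| < d} :=
    isOpen_lt ((continuous_xx.sub continuous_const).abs) continuous_const
  exact h1.inter ((isClopen_side p).isOpen.inter (isClopen_iso p).isOpen)

theorem exists_NN_subset {p : Sp} (hp : ¬ Iso p) {U : Set Sp} (hU : IsOpen U) (hpU : p ∈ U) :
    ∃ d : ℝ, 0 < d ∧ NN p d ⊆ U := by
  by_contra hcon
  push Not at hcon
  let t : ℕ → Set Sp := fun n => Uᶜ ∩ ({z : Sp | |xx z - xx p| ≤ 1 / ((n : ℝ) + 1)} ∩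
    ({z : Sp | ∀ a : Irr, (a : ℝ) = xx p → FF z a = FF p a} ∩
      {z : Sp | ∀ r : ℚ, (r : ℝ) = xx p → GG z r = false}))
  have hcl : ∀ n, IsClosed (t n) := fun n => hU.isClosed_compl.inter
    ((isClosed_le ((continuous_xx.sub continuous_const).abs) continuous_const).inter
      ((isClopen_side p).isClosed.inter (isClopen_iso p).isClosed))
  have hne : ∀ n, (t n).Nonempty := by
    intro n
    obtain ⟨z, hz, hzU⟩ := not_subset.mp (hcon (1 / ((n : ℝ) + 1)) (by positivity))
    exact ⟨z, hzU, hz.1.le, hz.2.1, hz.2.2⟩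
  have hanti : ∀ n, t (n + 1) ⊆ t n := by
    intro n z hz
    have hle : 1 / (((n + 1 : ℕ) : ℝ) + 1) ≤ 1 / ((n : ℝ) + 1) := by
      apply one_div_le_one_div_of_le (by positivity)
      push_cast
      linarith
    exact ⟨hz.1, le_trans (show |xx z - xx p| ≤ _ from hz.2.1) hle, hz.2.2⟩
  obtain ⟨z, hz⟩ := IsCompact.nonempty_iInter_of_sequence_nonempty_isCompact_isClosed t hanti hne
    (hcl 0).isCompact hcl
  rw [mem_iInter] at hz
  have hx : xx z = xx p := by
    by_contra hne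
    have hpos : 0 < |xx z - xx p| := abs_pos.mpr (sub_ne_zero.mpr hne)
    obtain ⟨n, hn⟩ := exists_nat_one_div_lt hpos
    have := (hz n).2.1
    simp only [mem_ofPred_eq] at this
    linarith
  have hG : ∀ r, GG z r = false := by
    intro r
    by_contra h
    have h' : GG z r = true := Bool.not_eq_false _ ▸ h
    have := (hz 0).2.2.2 r ((eq_of_GG h').symm.trans hx)
    rw [h'] at this
    cases this
  have : z = p := Sp_ext hx (hz 0).2.2.1 fun r => by rw [hG r, GG_false_of_not_Iso hp r]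
  exact (hz 0).1 (this ▸ hpU)

/-- the point over a rational number that is not isolated -/
noncomputable def qq (r : ℚ) (h0 : 0 ≤ (r : ℝ)) (h1 : (r : ℝ) ≤ 1) : Sp :=
  ⟨((r : ℝ), fun a => decide ((a : ℝ) < r), fun _ => false), ⟨⟨h0, h1⟩,
    fun a ha => (of_decide_eq_true ha).le, fun a ha => not_lt.mp (of_decide_eq_false ha),
    fun s hs => by cases hs⟩⟩

/-- the isolated point over a rational number -/
noncomputable def yy (r : ℚ) (h0 : 0 ≤ (r : ℝ)) (h1 : (r : ℝ) ≤ 1) : Sp :=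
  ⟨((r : ℝ), fun a => decide ((a : ℝ) < r), fun s => decide (s = r)), ⟨⟨h0, h1⟩,
    fun a ha => (of_decide_eq_true ha).le, fun a ha => not_lt.mp (of_decide_eq_false ha),
    fun s hs => by
      have := of_decide_eq_true hs
      simp only [this]⟩⟩

/-- the two points over an irrational number -/
noncomputable def hh (c : Irr) (h0 : 0 < (c : ℝ)) (h1 : (c : ℝ) < 1) (b : Bool) : Sp :=
  ⟨((c : ℝ), fun a => if (a : ℝ) < c then true else if (c : ℝ) < a then false else b,
    fun _ => false), ⟨⟨h0.le, h1.le⟩,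
    fun a ha => by
      by_contra h
      have h' : (c : ℝ) < a := not_le.mp h
      have ha' : (if (a : ℝ) < c then true else if (c : ℝ) < a then false else b) = true := ha
      rw [if_neg (not_lt.mpr h'.le), if_pos h'] at ha'
      exact Bool.noConfusion ha',
    fun a ha => by
      by_contra h
      have h' : (a : ℝ) < c := not_le.mp h
      have ha' : (if (a : ℝ) < c then true else if (c : ℝ) < a then false else b) = false := ha
      rw [if_pos h'] at ha'
      exact Bool.noConfusion ha',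
    fun s hs => by cases hs⟩⟩

theorem FF_hh (c : Irr) (h0 : 0 < (c : ℝ)) (h1 : (c : ℝ) < 1) (b : Bool) :
    FF (hh c h0 h1 b) c = b := by
  simp [FF, hh, toAmb]

theorem not_Iso_hh (c : Irr) (h0 : 0 < (c : ℝ)) (h1 : (c : ℝ) < 1) (b : Bool) :
    ¬ Iso (hh c h0 h1 b) := by
  rintro ⟨r, hr⟩
  cases hr

theorem not_Iso_qq (r : ℚ) (h0 : 0 ≤ (r : ℝ)) (h1 : (r : ℝ) ≤ 1) : ¬ Iso (qq r h0 h1) := by
  rintro ⟨s, hs⟩
  cases hs

theorem GG_yy (r : ℚ) (h0 : 0 ≤ (r : ℝ)) (h1 : (r : ℝ) ≤ 1) : GG (yy r h0 h1) r = true := by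
  simp [GG, yy, toAmb]

theorem yy_ne_qq (r : ℚ) (h0 : 0 ≤ (r : ℝ)) (h1 : (r : ℝ) ≤ 1) : yy r h0 h1 ≠ qq r h0 h1 := by
  intro h
  exact not_Iso_qq r h0 h1 (h ▸ ⟨r, GG_yy r h0 h1⟩)

/-! ### separability -/

theorem yy_mem_NN_right {p : Sp} (hx : xx p < 1) {d : ℝ} (hd : 0 < d)
    (hF : ∀ a : Irr, (a : ℝ) = xx p → FF p a = true) :
    ∃ (r : ℚ) (h0 : 0 ≤ (r : ℝ)) (h1 : (r : ℝ) ≤ 1), yy r h0 h1 ∈ NN p d := by
  obtain ⟨r, hr1, hr2⟩ := exists_rat_btwn (lt_min hx (by linarith : xx p < xx p + d))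
  have a1 := lt_of_lt_of_le hr2 (min_le_left _ _)
  have a2 := lt_of_lt_of_le hr2 (min_le_right _ _)
  refine ⟨r, (xx_nonneg p).trans hr1.le, a1.le, ?_, fun a ha => ?_, fun s hs => ?_⟩
  · change |(r : ℝ) - xx p| < d
    rw [abs_lt]; constructor <;> linarith
  · rw [hF a ha]
    exact FF_of_lt (by change (a : ℝ) < (r : ℝ); rw [ha]; exact hr1)
  · by_contra h
    have h' : GG (yy r _ _) s = true := Bool.not_eq_false _ ▸ h
    have e := eq_of_GG h'
    change (r : ℝ) = (s : ℝ) at e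
    rw [e, hs] at hr1
    exact lt_irrefl _ hr1

theorem yy_mem_NN_left {p : Sp} (hx : 0 < xx p) {d : ℝ} (hd : 0 < d)
    (hF : ∀ a : Irr, (a : ℝ) = xx p → FF p a = false) :
    ∃ (r : ℚ) (h0 : 0 ≤ (r : ℝ)) (h1 : (r : ℝ) ≤ 1), yy r h0 h1 ∈ NN p d := by
  obtain ⟨r, hr1, hr2⟩ := exists_rat_btwn (max_lt hx (by linarith : xx p - d < xx p))
  have a1 := lt_of_le_of_lt (le_max_left _ _) hr1
  have a2 := lt_of_le_of_lt (le_max_right _ _) hr1
  refine ⟨r, a1.le, hr2.le.trans (xx_le_one p), ?_, fun a ha => ?_, fun s hs => ?_⟩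
  · change |(r : ℝ) - xx p| < d
    rw [abs_lt]; constructor <;> linarith
  · rw [hF a ha]
    exact FF_of_gt (by change (r : ℝ) < (a : ℝ); rw [ha]; exact hr2)
  · by_contra h
    have h' : GG (yy r _ _) s = true := Bool.not_eq_false _ ▸ h
    have e := eq_of_GG h'
    change (r : ℝ) = (s : ℝ) at e
    rw [e, hs] at hr2
    exact lt_irrefl _ hr2

theorem exists_yy_mem_NN (p : Sp) {d : ℝ} (hd : 0 < d) :
    ∃ (r : ℚ) (h0 : 0 ≤ (r : ℝ)) (h1 : (r : ℝ) ≤ 1), yy r h0 h1 ∈ NN p d := by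
  by_cases hi : Irrational (xx p)
  · have hx0 : 0 < xx p := lt_of_le_of_ne (xx_nonneg p) fun h => hi ⟨0, by rw [← h]; simp⟩
    have hx1 : xx p < 1 := lt_of_le_of_ne (xx_le_one p) fun h => hi ⟨1, by rw [h]; simp⟩
    rcases hb : FF p ⟨xx p, hi⟩ with _ | _
    · refine yy_mem_NN_left hx0 hd fun a ha => ?_
      have : a = ⟨xx p, hi⟩ := Subtype.ext ha
      rw [this]; exact hb
    · refine yy_mem_NN_right hx1 hd fun a ha => ?_
      have : a = ⟨xx p, hi⟩ := Subtype.ext ha
      rw [this]; exact hb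
  · have hF : ∀ a : Irr, (a : ℝ) = xx p → False := fun a ha => hi (ha ▸ a.2)
    rcases lt_or_ge (xx p) 1 with h | h
    · exact yy_mem_NN_right h hd fun a ha => (hF a ha).elim
    · exact yy_mem_NN_left (lt_of_lt_of_le one_pos h) hd fun a ha => (hF a ha).elim

instance : SeparableSpace Sp := by
  let D : Set Sp := ⋃ r : ℚ, {z : Sp | GG z r = true}
  refine ⟨D, countable_iUnion fun r => Set.Subsingleton.countable
    fun z hz w hw => eq_of_GG_GG hz hw, ?_⟩
  rw [dense_iff_inter_open]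
  rintro U hU ⟨p, hp⟩
  by_cases hi : Iso p
  · obtain ⟨r, hr⟩ := hi
    exact ⟨p, hp, mem_iUnion.mpr ⟨r, hr⟩⟩
  · obtain ⟨d, hd, hN⟩ := exists_NN_subset hi hU hp
    obtain ⟨r, h0, h1, hr⟩ := exists_yy_mem_NN p hd
    exact ⟨_, hN hr, mem_iUnion.mpr ⟨r, GG_yy r h0 h1⟩⟩

/-! ### monotone normality -/

/-- the key property of the basic neighbourhoods, for ordered positions -/
theorem NN_half_lt {p q z : Sp} (hq : ¬ Iso q) (hp : ¬ Iso p) (hpq : xx p < xx q) {d e : ℝ}
    (hz1 : z ∈ NN p (d / 2)) (hz2 : z ∈ NN q (e / 2)) : q ∈ NN p d ∨ p ∈ NN q e := by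
  have A := abs_lt.mp hz1.1
  have B := abs_lt.mp hz2.1
  have hGp := GG_false_of_not_Iso hp
  have hGq := GG_false_of_not_Iso hq
  -- `q ∈ NN p d` as soon as `xx q - xx p < d` and `p` is not a left point
  have H1 : xx q - xx p < d → (∀ a : Irr, (a : ℝ) = xx p → FF p a = true) → q ∈ NN p d := by
    intro h hF
    refine ⟨by rw [abs_lt]; constructor <;> linarith, fun a ha => ?_, fun r _ => hGq r⟩
    rw [hF a ha]
    exact FF_of_lt (by rw [ha]; exact hpq)
  have H2 : xx q - xx p < e → (∀ a : Irr, (a : ℝ) = xx q → FF q a = false) → p ∈ NN q e := by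
    intro h hF
    refine ⟨by rw [abs_lt]; constructor <;> linarith, fun a ha => ?_, fun r _ => hGp r⟩
    rw [hF a ha]
    exact FF_of_gt (by rw [ha]; exact hpq)
  by_cases hp1 : ∀ a : Irr, (a : ℝ) = xx p → FF p a = true
  · by_cases hq1 : ∀ a : Irr, (a : ℝ) = xx q → FF q a = false
    · rcases le_total d e with h | h
      · exact Or.inr (H2 (by linarith) hq1)
      · exact Or.inl (H1 (by linarith) hp1)
    · push Not at hq1
      obtain ⟨b, hb, hb'⟩ := hq1
      have hb'' : FF q b = true := Bool.not_eq_false _ ▸ hb'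
      have hzb : FF z b = true := (hz2.2.1 b hb).trans hb''
      have := le_of_FF hzb
      exact Or.inl (H1 (by linarith) hp1)
  · push Not at hp1
    obtain ⟨a, ha, ha'⟩ := hp1
    have ha'' : FF p a = false := Bool.not_eq_true _ ▸ ha'
    have hza : FF z a = false := (hz1.2.1 a ha).trans ha''
    have h3 := ge_of_FF hza
    refine Or.inr (H2 (by linarith) fun b hb => ?_)
    by_contra h
    have hb'' : FF q b = true := Bool.not_eq_false _ ▸ h
    have hzb : FF z b = true := (hz2.2.1 b hb).trans hb''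
    have := le_of_FF hzb
    linarith

theorem NN_half {p q z : Sp} (hp : ¬ Iso p) (hq : ¬ Iso q) {d e : ℝ} (hd : 0 < d)
    (hz1 : z ∈ NN p (d / 2)) (hz2 : z ∈ NN q (e / 2)) : q ∈ NN p d ∨ p ∈ NN q e := by
  rcases lt_trichotomy (xx p) (xx q) with h | h | h
  · exact NN_half_lt hq hp h hz1 hz2
  · have : q = p := by
      refine Sp_ext h.symm (fun a ha => ?_) fun r => by
        rw [GG_false_of_not_Iso hp, GG_false_of_not_Iso hq]
      rw [← hz1.2.1 a ha, ← hz2.2.1 a (ha.trans h)]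
    rw [this]
    exact Or.inl (self_mem_NN hp hd)
  · exact (NN_half_lt hp hq h hz2 hz1).symm

open Classical in
/-- the monotone normality operator -/
noncomputable def HH (p : Sp) (U : Set Sp) : Set Sp :=
  if h : ¬ Iso p ∧ IsOpen U ∧ p ∈ U then NN p (Classical.choose (exists_NN_subset h.1 h.2.1 h.2.2) / 2)
  else {p}

theorem HH_of_Iso {p : Sp} (h : Iso p) (U : Set Sp) : HH p U = {p} := by
  unfold HH
  rw [dif_neg]
  exact fun h' => h'.1 h

theorem HH_of_not_Iso {p : Sp} (h : ¬ Iso p) {U : Set Sp} (hU : IsOpen U) (hp : p ∈ U) :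
    ∃ d : ℝ, 0 < d ∧ NN p d ⊆ U ∧ HH p U = NN p (d / 2) := by
  have h' : ¬ Iso p ∧ IsOpen U ∧ p ∈ U := ⟨h, hU, hp⟩
  refine ⟨Classical.choose (exists_NN_subset h'.1 h'.2.1 h'.2.2),
    (Classical.choose_spec (exists_NN_subset h'.1 h'.2.1 h'.2.2)).1,
    (Classical.choose_spec (exists_NN_subset h'.1 h'.2.1 h'.2.2)).2, ?_⟩
  unfold HH
  rw [dif_pos h']

theorem isOpen_singleton_of_Iso {p : Sp} (h : Iso p) : IsOpen ({p} : Set Sp) := by
  obtain ⟨r, hr⟩ := h
  have : ({p} : Set Sp) = {z : Sp | GG z r = true} := by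
    ext z
    exact ⟨fun hz => by rw [mem_singleton_iff.mp hz]; exact hr, fun hz => eq_of_GG_GG hz hr⟩
  rw [this]
  exact (isClopen_GG r true).isOpen

theorem HH_spec : (∀ (x : Sp) (U : Set Sp), IsOpen U → x ∈ U →
      IsOpen (HH x U) ∧ x ∈ HH x U ∧ HH x U ⊆ U) ∧
    (∀ (x y : Sp) (U V : Set Sp), IsOpen U → IsOpen V → x ∈ U → y ∈ V →
      (HH x U ∩ HH y V).Nonempty → x ∈ V ∨ y ∈ U) := by
  have first : ∀ (x : Sp) (U : Set Sp), IsOpen U → x ∈ U →
      IsOpen (HH x U) ∧ x ∈ HH x U ∧ HH x U ⊆ U := by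
    intro x U hU hx
    by_cases hi : Iso x
    · rw [HH_of_Iso hi]
      exact ⟨isOpen_singleton_of_Iso hi, mem_singleton _, singleton_subset_iff.mpr hx⟩
    · obtain ⟨d, hd, hN, he⟩ := HH_of_not_Iso hi hU hx
      rw [he]
      exact ⟨isOpen_NN _ _, self_mem_NN hi (by linarith), (NN_mono (by linarith)).trans hN⟩
  refine ⟨first, ?_⟩
  rintro x y U V hU hV hx hy ⟨z, hz1, hz2⟩
  by_cases hix : Iso x
  · rw [HH_of_Iso hix] at hz1
    rw [mem_singleton_iff.mp hz1] at hz2
    exact Or.inl ((first y V hV hy).2.2 hz2)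
  · by_cases hiy : Iso y
    · rw [HH_of_Iso hiy] at hz2
      rw [mem_singleton_iff.mp hz2] at hz1
      exact Or.inr ((first x U hU hx).2.2 hz1)
    · obtain ⟨d, hd, hN, he⟩ := HH_of_not_Iso hix hU hx
      obtain ⟨e, hd', hN', he'⟩ := HH_of_not_Iso hiy hV hy
      rw [he] at hz1
      rw [he'] at hz2
      rcases NN_half hix hiy hd hz1 hz2 with h | h
      · exact Or.inr (hN h)
      · exact Or.inl (hN' h)

/-! ### the space is not orderable -/

/-- irrational numbers whose two points are separated by the relation `L` at scale `1/(n+1)` -/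
def Sep (L : Sp → Sp → Prop) (n : ℕ) : Set ℝ :=
  {a | ∃ (ha : Irrational a) (h0 : 0 < a) (h1 : a < 1),
    ∀ z ∈ NN (hh ⟨a, ha⟩ h0 h1 false) (1 / ((n : ℝ) + 1)),
    ∀ w ∈ NN (hh ⟨a, ha⟩ h0 h1 true) (1 / ((n : ℝ) + 1)), L z w}

theorem Sep_apply {L : Sp → Sp → Prop} {n : ℕ} {a : ℝ} (h : a ∈ Sep L n) {z w : Sp}
    (hz : xx z < a) (hz' : a < xx z + 1 / ((n : ℝ) + 1)) (hw : a < xx w)
    (hw' : xx w < a + 1 / ((n : ℝ) + 1)) : L z w := by
  obtain ⟨ha, h0, h1, H⟩ := h
  refine H z ⟨?_, fun b hb => ?_, fun r hr => absurd hr.symm (irr_ne_rat ⟨a, ha⟩ r)⟩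
    w ⟨?_, fun b hb => ?_, fun r hr => absurd hr.symm (irr_ne_rat ⟨a, ha⟩ r)⟩
  · change |xx z - a| < _
    rw [abs_lt]; constructor <;> linarith
  · have hb' : (b : ℝ) = a := hb
    have : b = ⟨a, ha⟩ := Subtype.ext hb'
    rw [this, FF_hh]
    exact FF_of_gt hz
  · change |xx w - a| < _
    rw [abs_lt]; constructor <;> linarith
  · have hb' : (b : ℝ) = a := hb
    have : b = ⟨a, ha⟩ := Subtype.ext hb'
    rw [this, FF_hh]
    exact FF_of_lt hw

theorem key {L : Sp → Sp → Prop} (hc1 : ∀ w, IsClosed {z | L z w}) (hc2 : ∀ w, IsClosed {z | L w z})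
    (has : ∀ z w, L z w → L w z → z = w) (n : ℕ) {t : ℝ} (ht : t ∈ interior (closure (Sep L n)))
    (h0 : 0 < t) (h1 : t < 1) : False := by
  -- a small interval around `t`
  obtain ⟨e, he, hball⟩ : ∃ e > 0, Metric.ball t e ⊆ interior (closure (Sep L n)) :=
    Metric.isOpen_iff.mp isOpen_interior t ht
  obtain ⟨d, hd, hde, hd0, hd1, hdn⟩ : ∃ d : ℝ, 0 < d ∧ d ≤ e ∧ d ≤ t ∧ d ≤ 1 - t ∧
      2 * d ≤ 1 / ((n : ℝ) + 1) := by
    refine ⟨min (min e t) (min (1 - t) (1 / ((n : ℝ) + 1) / 2)), ?_, ?_, ?_, ?_, ?_⟩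
    · refine lt_min (lt_min he h0) (lt_min (by linarith) (by positivity))
    · exact (min_le_left _ _).trans (min_le_left _ _)
    · exact (min_le_left _ _).trans (min_le_right _ _)
    · exact (min_le_right _ _).trans (min_le_left _ _)
    · have := (min_le_right (min e t) (min (1 - t) (1 / ((n : ℝ) + 1) / 2))).trans (min_le_right _ _)
      linarith
  obtain ⟨r, hr1, hr2⟩ := exists_rat_btwn (by linarith : t - d < t + d)
  have hr0 : 0 ≤ (r : ℝ) := by linarith
  have hr1' : (r : ℝ) ≤ 1 := by linarith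
  -- density of `Sep L n` near `t`
  have dens : ∀ u v : ℝ, t - d ≤ u → u < v → v ≤ t + d → ∃ a ∈ Sep L n, u < a ∧ a < v := by
    intro u v hu huv hv
    have hm : (u + v) / 2 ∈ closure (Sep L n) := by
      apply interior_subset
      apply hball
      rw [Metric.mem_ball, Real.dist_eq, abs_lt]
      constructor <;> linarith
    rw [mem_closure_iff] at hm
    obtain ⟨a, ha1, ha2⟩ := hm (Ioo u v) isOpen_Ioo ⟨by linarith, by linarith⟩
    exact ⟨a, ha2, ha1.1, ha1.2⟩
  have left : ∀ z w : Sp, t - d < xx z → xx z < r → xx w = r → L z w := by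
    intro z w hz hz' hw
    obtain ⟨a, ha, ha1, ha2⟩ := dens (xx z) r hz.le hz' hr2.le
    exact Sep_apply ha ha1 (by linarith) (by rw [hw]; exact ha2) (by rw [hw]; linarith)
  have right : ∀ z w : Sp, xx z < t + d → (r : ℝ) < xx z → xx w = r → L w z := by
    intro z w hz hz' hw
    obtain ⟨a, ha, ha1, ha2⟩ := dens r (xx z) hr1.le hz' hz.le
    exact Sep_apply ha (by rw [hw]; exact ha1) (by rw [hw]; linarith) ha2 (by linarith)
  have hxq : xx (qq r hr0 hr1') = r := rfl
  have hxy : xx (yy r hr0 hr1') = r := rfl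
  -- the point `qq r` is a limit from the left and from the right
  have h1' : L (qq r hr0 hr1') (yy r hr0 hr1') := by
    have hsub : qq r hr0 hr1' ∈ closure {z : Sp | t - d < xx z ∧ xx z < r} := by
      rw [mem_closure_iff]
      intro U hU hqU
      obtain ⟨c, hc, hcU⟩ := exists_NN_subset (not_Iso_qq r hr0 hr1') hU hqU
      obtain ⟨s, hs1, hs2⟩ := exists_rat_btwn (max_lt (by linarith : (r : ℝ) - c < r) hr1)
      have b1 := lt_of_le_of_lt (le_max_left _ _) hs1
      have b2 := lt_of_le_of_lt (le_max_right _ _) hs1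
      have s0 : 0 ≤ (s : ℝ) := by linarith
      have s1 : (s : ℝ) ≤ 1 := by linarith
      refine ⟨qq s s0 s1, hcU ⟨?_, fun a ha => ?_, fun _ _ => rfl⟩, b2, hs2⟩
      · change |(s : ℝ) - (r : ℝ)| < c
        rw [abs_lt]; constructor <;> linarith
      · exact absurd ha (irr_ne_rat a r)
    have := (hc1 (yy r hr0 hr1')).closure_subset_iff.mpr
      (fun z (hz : t - d < xx z ∧ xx z < r) => left z (yy r hr0 hr1') hz.1 hz.2 hxy) hsub
    exact this
  have h2' : L (yy r hr0 hr1') (qq r hr0 hr1') := by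
    have hsub : qq r hr0 hr1' ∈ closure {z : Sp | xx z < t + d ∧ (r : ℝ) < xx z} := by
      rw [mem_closure_iff]
      intro U hU hqU
      obtain ⟨c, hc, hcU⟩ := exists_NN_subset (not_Iso_qq r hr0 hr1') hU hqU
      obtain ⟨s, hs1, hs2⟩ := exists_rat_btwn (lt_min (by linarith : (r : ℝ) < r + c) hr2)
      have b1 := lt_of_lt_of_le hs2 (min_le_left _ _)
      have b2 := lt_of_lt_of_le hs2 (min_le_right _ _)
      have s0 : 0 ≤ (s : ℝ) := by linarith
      have s1 : (s : ℝ) ≤ 1 := by linarith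
      refine ⟨qq s s0 s1, hcU ⟨?_, fun a ha => ?_, fun _ _ => rfl⟩, b2, hs1⟩
      · change |(s : ℝ) - (r : ℝ)| < c
        rw [abs_lt]; constructor <;> linarith
      · exact absurd ha (irr_ne_rat a r)
    have := (hc2 (yy r hr0 hr1')).closure_subset_iff.mpr
      (fun z (hz : xx z < t + d ∧ (r : ℝ) < xx z) => right z (yy r hr0 hr1') hz.1 hz.2 hxy) hsub
    exact this
  exact yy_ne_qq r hr0 hr1' (has _ _ h2' h1')

theorem not_orderable [LinearOrder Sp] [OrderTopology Sp] : False := by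
  let f : Option (ℕ × Bool) → Set ℝ := fun i => match i with
    | none => Iic 0 ∪ Ici 1
    | some (n, true) => closure (Sep (fun z w => z ≤ w) n)
    | some (n, false) => closure (Sep (fun z w => w ≤ z) n)
  have hcl : ∀ i, IsClosed (f i) := by
    rintro (_ | ⟨n, _ | _⟩)
    · exact isClosed_Iic.union isClosed_Ici
    · exact isClosed_closure
    · exact isClosed_closure
  have hcov : {x : ℝ | Irrational x} ⊆ ⋃ i, f i := by
    intro a ha
    rw [mem_iUnion]
    by_cases h0 : 0 < a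
    swap
    · exact ⟨none, Or.inl (not_lt.mp h0)⟩
    by_cases h1 : a < 1
    swap
    · exact ⟨none, Or.inr (not_lt.mp h1)⟩
    have hne : hh ⟨a, ha⟩ h0 h1 false ≠ hh ⟨a, ha⟩ h0 h1 true := by
      intro h
      have := FF_hh ⟨a, ha⟩ h0 h1 false
      rw [h, FF_hh] at this
      cases this
    have sc : ∀ d e : ℝ, 0 < d → 0 < e → ∃ n : ℕ, 1 / ((n : ℝ) + 1) ≤ d ∧ 1 / ((n : ℝ) + 1) ≤ e := by
      intro d e hd he
      obtain ⟨n, hn⟩ := exists_nat_one_div_lt (lt_min hd he)
      exact ⟨n, hn.le.trans (min_le_left _ _), hn.le.trans (min_le_right _ _)⟩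
    rcases lt_or_gt_of_ne hne with h | h
    · obtain ⟨u, v, hu, hv, hau, hav, H⟩ := order_separated h
      obtain ⟨d, hd, hdu⟩ := exists_NN_subset (not_Iso_hh _ _ _ _) hu hau
      obtain ⟨e, he, hev⟩ := exists_NN_subset (not_Iso_hh _ _ _ _) hv hav
      obtain ⟨n, hn1, hn2⟩ := sc d e hd he
      refine ⟨some (n, true), subset_closure ⟨ha, h0, h1, fun z hz w hw => ?_⟩⟩
      exact (H z (hdu (NN_mono hn1 hz)) w (hev (NN_mono hn2 hw))).le
    · obtain ⟨u, v, hu, hv, hau, hav, H⟩ := order_separated h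
      obtain ⟨d, hd, hdu⟩ := exists_NN_subset (not_Iso_hh _ _ _ _) hu hau
      obtain ⟨e, he, hev⟩ := exists_NN_subset (not_Iso_hh _ _ _ _) hv hav
      obtain ⟨n, hn1, hn2⟩ := sc d e hd he
      refine ⟨some (n, false), subset_closure ⟨ha, h0, h1, fun z hz w hw => ?_⟩⟩
      exact (H w (hdu (NN_mono hn1 hw)) z (hev (NN_mono hn2 hz))).le
  have hdense := IsGδ.setOfPred_irrational.dense_iUnion_interior_of_closed dense_irrational hcl hcov
  obtain ⟨t, ht, hti⟩ := (dense_iff_inter_open.mp hdense) (Ioo 0 1) isOpen_Ioo ⟨1 / 2, by norm_num⟩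
  rw [mem_iUnion] at hti
  obtain ⟨i, hi⟩ := hti
  rcases i with _ | ⟨n, _ | _⟩
  · rcases interior_subset hi with h | h
    · exact absurd ht.1 (not_lt.mpr h)
    · exact absurd ht.2 (not_lt.mpr h)
  · exact key (L := fun z w : Sp => w ≤ z) (fun w => isClosed_Ici) (fun w => isClosed_Iic)
      (fun z w h1 h2 => le_antisymm h2 h1) n hi ht.1 ht.2
  · exact key (L := fun z w : Sp => z ≤ w) (fun w => isClosed_Iic) (fun w => isClosed_Ici)
      (fun z w h1 h2 => le_antisymm h1 h2) n hi ht.1 ht.2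

end Pool.Agent.Lib.MP_7dfaf1_gt
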